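import Pool.Agent.Lib.MP_ed9a33_co_Full.Run

set_option autoImplicit false

namespace Pool.Agent.Results.MP_ed9a33_co.ExplicitBound

/-- For every `k ≥ 3` and every orientation of the `k`-cycle (edge `i` from branch vertex `i` to
branch vertex `i + 1` mod `k`, forward iff `σ i = true`), every finite nonempty digraph all of
whose vertices have at least `2 * k - 3` out-neighbours contains a subdivision of it. -/
theorem result (k : ℕ) (hk : 3 ≤ k) (σ : ℕ → Bool) (V : Type) [Finite V] [Nonempty V]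
    (A : V → V → Prop) (hdeg : ∀ v : V, 2 * k - 3 ≤ {w : V | w ≠ v ∧ A v w}.ncard) :
    ∃ ℓ : ℕ → ℕ, ∃ p : ℕ → ℕ → V,
      (∀ i < k, 1 ≤ ℓ i ∧ p i (ℓ i) = p ((i + 1) % k) 0 ∧
        ∀ j < ℓ i, (σ i = true → A (p i j) (p i (j + 1))) ∧
                   (σ i = false → A (p i (j + 1)) (p i j))) ∧
      (∀ i i' j j' : ℕ, i < k → i' < k → j < ℓ i → j' < ℓ i' →
        p i j = p i' j' → i = i' ∧ j = j') := by
  classical
  haveI := Fintype.ofFinite V
  refine Pool.Agent.Lib.MP_ed9a33_co_Full.hasCycle (A := A) (K := 2 * k - 3) (by omega) ?_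
    le_rfl σ
  intro v
  refine ⟨{w : V | w ≠ v ∧ A v w}.toFinset, ?_, ?_⟩
  · rw [← Set.ncard_eq_toFinset_card']
    exact hdeg v
  · intro w hw
    simpa using hw

end Pool.Agent.Results.MP_ed9a33_co.ExplicitBound
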